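import Pool.Agent.Lib.MP_5c318e_ag.B.Bridge
import Pool.Agent.Lib.MP_5c318e_ag.C.Col
import Pool.Agent.Lib.MP_5c318e_ag.S.PLift
import Pool.Agent.Lib.MP_5c318e_ag.Ky.Tem

/-! The collar of a prime divisor as a collar in the sense of the horn model. -/

set_option autoImplicit false
set_option linter.unusedSectionVars false

namespace Pool.Agent.Lib.MP_5c318e_ag

open Metric Filter Topology Set

noncomputable section

variable {ι F : Type} [Fintype ι] [DecidableEq ι] [Field F] [Algebra ℂ F]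

theorem finrank_ins (i0 : ι) :
    Module.finrank ℂ (ℂ × ({i // i ≠ i0} → ℂ)) = Fintype.card ι := by
  rw [Module.finrank_prod, Module.finrank_self, Module.finrank_fintype_fun_eq_card,
    Fintype.card_subtype_compl, Fintype.card_subtype_eq]
  exact Nat.add_sub_cancel' (Fintype.card_pos_iff.2 ⟨i0⟩)

theorem FCht.md_sz (B : FCht ι F) : Md B.siz B.sz := by
  obtain ⟨C, -, c2, c3⟩ := B.toCht.cov B.fin
  obtain ⟨L, hL, h⟩ := B.toCht.siz_ψ B.fin C c2 c3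
  refine ⟨2 * L + 1, by positivity, fun p => ?_⟩
  have h1 := C.norm_le p
  have h2 := C.inv_Δ_le' p
  have h3 := Real.one_le_exp (C.ψ_nonneg p)
  have h4 := B.toCht.siz_nonneg p
  have h5 : B.sz p ≤ Real.exp (C.ψ p) * Real.exp (C.ψ p) * Real.exp 1 := by
    have h6 := Real.add_one_le_exp 1
    have h7 := mul_le_mul h1 h2 (by positivity) (by positivity)
    rw [FCht.sz, FCht.dv, div_eq_mul_inv, ← c2]
    nlinarith
  refine h5.trans ?_
  rw [← Real.exp_add, ← Real.exp_add, Real.exp_le_exp]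
  nlinarith [(h p).2]

theorem FCht.Tem.md {B : FCht ι F} {u : Pt B.O → ℝ} (h : B.Tem u) : Md B.siz u := by
  obtain ⟨A, N, h⟩ := h
  exact ((Md.const B.toCht.siz_nonneg A).mul (B.md_sz.pow B.toCht.siz_nonneg
    (fun p => (B.sz_pos p).le) N) fun p => (pow_pos (B.sz_pos p) N).le).mono h

namespace Collar

variable {C : Cht ι F} {P : ValuationSubring F} {i0 : ι} {k : Type} [Field k] [Algebra ℂ k]
  (Γ : Collar C P i0 k)

/-- general points of the divisor come from the chart of the residue field -/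
theorem gen_surj : ∃ e : C.O, P.valuation (e : F) = 1 ∧
    ∀ c : Pt C.O, c (C.z i0) = 0 → c e ≠ 0 → ∃ q : Pt Γ.S.O, q.res Γ.res = c := by
  have sj := Γ.res.rangeRestrict_surjective
  have : Algebra.FiniteType ℂ Γ.res.range := .of_surjective _ sj
  obtain ⟨e, e0, h⟩ := Pt.exists_lift Γ.res.range.val Subtype.val_injective (h := 1) one_ne_zero
  obtain ⟨a, rfl⟩ := sj e
  have kr : ∀ b : C.O, Γ.res.rangeRestrict b = 0 ↔ P.valuation (b : F) < 1 := fun b => by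
    rw [← Γ.rs_ker ⟨b, Γ.at'.le b b.2⟩, ← Γ.res_eq, Subtype.ext_iff, Subtype.ext_iff]
    rfl
  refine ⟨a, ((P.valuation_le_one_iff _).2 (Γ.at'.le _ a.2)).eq_of_not_lt
    fun h1 => e0 ((kr a).2 h1), fun c c0 c1 => ?_⟩
  have kc : RingHom.ker Γ.res.rangeRestrict.toRingHom ≤ RingHom.ker c.hom.toRingHom :=
    fun b hb => by
      obtain ⟨d, rfl⟩ := Γ.at'.ker b ((kr b).1 hb)
      change c _ = 0
      rw [map_mul, c0, zero_mul]
  have ev := AlgHom.liftOfSurjective_apply _ sj c.hom kc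
  obtain ⟨q, hq, -⟩ := h (Pt.mk (AlgHom.liftOfSurjective _ sj c.hom kc)) (by
    rw [Pt.mk_apply, ev]
    exact c1)
  exact ⟨q, Pt.ext fun b => (congrArg (fun p : Pt _ => p (Γ.res.rangeRestrict b)) hq).trans (ev b)⟩

/-- the coordinates of a point of `C` -/
def crd (_Γ : Collar C P i0 k) (c : Pt C.O) : ℂ × ({i // i ≠ i0} → ℂ) :=
  (c (C.z i0), fun i => c (C.z i))

theorem crd_cont : Continuous Γ.crd :=
  (Pt.continuous_apply _).prodMk (continuous_pi fun _ => Pt.continuous_apply _)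

theorem ins_crd (c : Pt C.O) : insL i0 (Γ.crd c) = C.D.π c := by
  funext i
  rw [insL_apply, C.π_eq]
  by_cases h : i = i0 <;> simp [ins, crd, h]

theorem zero_mem (q : Pt Γ.S.O) : ((0 : ℂ), Γ.S.D.π q) ∈ Γ.dom q :=
  Γ.self_mem q (mem_ball_self (Real.exp_pos _))

theorem H_zero (q : Pt Γ.S.O) : Γ.H q (0, Γ.S.D.π q) = q.res Γ.res := by rw [Γ.H_self, Γ.zero]

theorem crd_res (q : Pt Γ.S.O) : Γ.crd (q.res Γ.res) = (0, Γ.S.D.π q) :=
  insL_inj i0 (by rw [Γ.ins_crd, ← Γ.H_zero, Γ.H_π q (Γ.zero_mem q)])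

theorem tendsto_crd (q : Pt Γ.S.O) : Tendsto Γ.crd (𝓝 (q.res Γ.res)) (𝓝 (0, Γ.S.D.π q)) :=
  Γ.crd_res q ▸ Γ.crd_cont.tendsto _

/-- the collar covers a neighbourhood of every point of the divisor that comes from `S` -/
theorem ev_crd (q : Pt Γ.S.O) :
    ∀ᶠ c in 𝓝 (q.res Γ.res), Γ.crd c ∈ Γ.dom q ∧ Γ.H q (Γ.crd c) = c := by
  filter_upwards [(Γ.tendsto_crd q).eventually ((Γ.isOpen_dom q).mem_nhds (Γ.zero_mem q)),
    (Γ.tendsto_crd q).eventually (Γ.H_germ q (Γ.zero_mem q)),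
    (C.D.ch _).open_source.mem_nhds (C.D.mem_src (q.res Γ.res))] with c h1 h2 h3
  rw [Γ.H_zero, Γ.ins_crd, RD.sec_π h3] at h2
  exact ⟨h1, h2⟩

theorem ev_near (q : Pt Γ.S.O) {A : ℂ → Pt C.O → Prop}
    (h : ∀ᶠ p in 𝓝[≠] (0 : ℂ) ×ˢ 𝓝 q, A p.1 (Γ.Φ p.1 p.2)) :
    ∀ᶠ c in 𝓝[{c | c (C.z i0) ≠ 0}] (q.res Γ.res), A (c (C.z i0)) c := by
  have t := (Γ.tendsto_crd q).mono_left (nhdsWithin_le_nhds (s := {c | c (C.z i0) ≠ 0}))
  have s : Tendsto (Γ.σ q) (𝓝 (Γ.S.D.π q)) (𝓝 q) := by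
    simpa only [ContinuousAt, Γ.tame.base] using
      (Γ.tame.cont q).continuousAt (ball_mem_nhds _ (Real.exp_pos _))
  have t1 : Tendsto (fun c : Pt C.O => c (C.z i0)) _ (𝓝[≠] 0) :=
    tendsto_nhdsWithin_iff.2 ⟨(continuous_fst.tendsto _).comp t, self_mem_nhdsWithin⟩
  filter_upwards [(t1.prodMk (s.comp ((continuous_snd.tendsto _).comp t))).eventually h,
    mem_nhdsWithin_of_mem_nhds (Γ.ev_crd q)] with c h1 h2
  exact (congrArg (A (c (C.z i0))) h2.2).mp h1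

variable {B : Cht ι F} (τ : Tr C.O B.O) (hτ : τ.h = C.z i0)
include hτ

theorem hmap (x : Pt Γ.S.O) : Br.HMap B.D (Γ.dom0 x) fun u => τ.map (Γ.H x u) :=
  ⟨Γ.isOpen_dom0 x, Γ.B_cont τ hτ x, Γ.B_π τ hτ x⟩

theorem col : Br.Col B.D Γ.S.D Γ.ρ Γ.ρ Γ.σ fun ζ x => τ.map (Γ.Φ ζ x) where
  ρ0 _ := Real.exp_pos _
  R0 _ := Real.exp_pos _
  sec x := ⟨Γ.tame.base x, Γ.tame.cont x, Γ.tame.lift x⟩
  hol := Γ.hmap τ hτ
  opn x := by
    have h0 : 0 < Γ.ρ x := Real.exp_pos _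
    have m : (((Γ.ρ x / 2 : ℝ) : ℂ), Γ.S.D.π x) ∈ Γ.dom0 x :=
      ⟨⟨by rw [mem_ball_zero_iff, Complex.norm_real, Real.norm_of_nonneg (half_pos h0).le]
           exact half_lt_self h0, Complex.ofReal_ne_zero.2 (half_pos h0).ne'⟩, mem_ball_self h0⟩
    exact ⟨_, m, (Γ.hmap τ hτ x).nhds_le_of_inj m (finrank_ins i0) (Γ.B_fd_inj τ hτ x m)⟩

/-- moderate functions have polynomial growth in `1 / |z|` along the collar -/
theorem mod {u : Pt B.O → ℝ} (hu : Md B.siz u) (x : Pt Γ.S.O) :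
    ∃ A : ℝ, ∀ y ∈ ball (Γ.S.D.π x) (Γ.ρ x), ∃ c : ℝ, ∀ z ∈ ball (0 : ℂ) (Γ.ρ x) \ {0},
      u (τ.map (Γ.Φ z (Γ.σ x y))) ≤ c * ‖z‖ ^ (-A) := by
  obtain ⟨K, hK, h⟩ := hu
  obtain ⟨L, -, hL⟩ := Γ.B_siz τ hτ
  refine ⟨K * L, fun y hy => ⟨Real.exp (K * (L * Γ.ψ x + L) + K), fun z hz => (h _).trans ?_⟩⟩
  have h1 := mul_le_mul_of_nonneg_left (hL x (z, y) ⟨hz, hy⟩) hK
  rw [Real.rpow_def_of_pos (norm_pos_iff.2 hz.2), ← Real.exp_add, Real.exp_le_exp]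
  rw [Real.log_inv] at h1
  linarith

end Collar

namespace Bdy

variable {B : Cht ι F} {P : ValuationSubring F} (b : Bdy B P) {k : Type} [Field k] [Algebra ℂ k]
  (Γ : Collar b.C P b.i0 k)

theorem gen_col {A : Pt b.C.O → Prop} (h : ∀ q : Pt Γ.S.O, A (q.res Γ.res)) :
    ∀ᶠ c in b.gen, A c := by
  obtain ⟨e, h1, h2⟩ := Γ.gen_surj
  refine ⟨e, h1, fun c c0 c1 => ?_⟩
  obtain ⟨q, rfl⟩ := h2 c c0 c1
  exact h q

theorem near_col (q : Pt Γ.S.O) {A : ℂ → Pt B.O → Prop}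
    (h : ∀ᶠ p in 𝓝[≠] (0 : ℂ) ×ˢ 𝓝 q, A p.1 (b.τ.map (Γ.Φ p.1 p.2))) :
    ∀ᶠ p in b.near (q.res Γ.res), A (p.ev b.z) p := by
  refine eventually_map.2 (((Γ.ev_near q (A := fun z c => A z (b.τ.map c)) h).and
    self_mem_nhdsWithin).mono fun c hc => ?_)
  rw [← ((b.τ.same c (b.hτ ▸ hc.2)).1 _).2, z, Pt.ev_coe]
  exact hc.1

end Bdy

end

end Pool.Agent.Lib.MP_5c318e_ag
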