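import Pool.Agent.Lib.MP_5c318e_ag.Pf.ProfA
import Pool.Agent.Lib.MP_5c318e_ag.Z.Glue

/-! The profile of the Hodge line of a set-up. -/

set_option autoImplicit false
set_option linter.unusedSectionVars false

namespace Pool.Agent.Lib.MP_5c318e_ag

variable {δ ν K M : Type} [Fintype δ] [DecidableEq δ] [Fintype ν] [DecidableEq ν]
  [Field K] [Algebra ℂ K] [Field M] [Algebra ℂ M] [Algebra K M] [IsScalarTower ℂ K M]

theorem Dat.Pkg.prof {d : Dat δ K ν M} (P : d.Pkg) :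
    ∃ M0 : ℕ, 0 < M0 ∧ Nonempty (Prof d.fc d.η d.k (d.Dn M0) P.rk P.c) := by
  obtain ⟨t1, t2⟩ := d.tem_Dn 1
  obtain ⟨M0, h0, h⟩ := exists_prof (B := d.fc) (V := P.V) d.base P.hl.top P.hl.ne P.hl.full P.rk_le
    (t1.mono _ fun p => by rw [P.nrm, Dat.Dn, pow_one])
    (t2.mono _ fun p => by rw [P.nrm, Dat.Dn, pow_one])
  simp only [P.nrm] at h
  exact ⟨M0, h0, h⟩

end Pool.Agent.Lib.MP_5c318e_ag
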