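import Pool.Agent.Lib.MP_5c318e_ag.B.Bridge
import Pool.Agent.Lib.MP_5c318e_ag.C.Psi
import Pool.Agent.Lib.MP_5c318e_ag.B.Ord

/-! From a weighted square integral to a pointwise bound. -/

set_option autoImplicit false
set_option linter.unusedSectionVars false

namespace Pool.Agent.Lib.MP_5c318e_ag.Br

open Complex Matrix Metric Filter Topology Set V G B MeasureTheory
open scoped ContDiff ComplexOrder

noncomputable section

variable {ι : Type} [Fintype ι] {S : Type} [TopologicalSpace S] [MeasurableSpace S] [BorelSpace S]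
  [T2Space S] [SigmaCompactSpace S] {D : RD ι S} {n : Type} [Fintype n] [DecidableEq n] {w : ℕ}
  {V : Pk D n w} {om : V.Bt → n → ℂ}

theorem lint_sec (D : RD ι S) {σ : (ι → ℂ) → S} {U : Set (ι → ℂ)} (hU : MeasurableSet U)
    (hl : ∀ z ∈ U, D.π (σ z) = z) {F : S → ENNReal} (hF : Measurable F) {f : (ι → ℂ) → ENNReal}
    {c : ENNReal} (hc : c ≠ ⊤) (h : ∀ z ∈ U, f z ≤ c * F (σ z)) :
    ∫⁻ z in U, f z ≤ c * ∫⁻ p, F p ∂D.μ := by
  rw [D.lintegral_eq hF, ← lintegral_const_mul' _ _ hc]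
  refine le_trans (setLIntegral_mono' hU fun y hy => ?_) (setLIntegral_le_lintegral _ _)
  exact (h y hy).trans (mul_le_mul_right (ENNReal.le_tsum (f := fun y : D.π ⁻¹' {y} => F y)
    ⟨σ y, hl y hy⟩) _)

/-- the mean value inequality on a lifted ball -/
theorem submean_sec (w : ℕ) (n : Type) [Fintype n] [DecidableEq n] : ∃ C : ℝ, 1 ≤ C ∧
    ∀ (ι : Type) [Fintype ι] (S : Type) [TopologicalSpace S] [MeasurableSpace S] [T2Space S]
      [SigmaCompactSpace S] (D : RD ι S) (V : Pk D n w) (om : V.Bt → n → ℂ), V.Top om →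
      ∀ (y0 : ι → ℂ) (r : ℝ) (σ : (ι → ℂ) → S), 0 < r → ContinuousOn σ (ball y0 r) →
      (∀ z ∈ ball y0 r, D.π (σ z) = z) → ∀ g : S → ℂ, D.Hol g → ∀ t : ℕ,
      ENNReal.ofReal (‖g (σ y0)‖ ^ 2 * V.N om (σ y0) ^ t * (Real.pi * (r / 2) ^ 2) ^ Fintype.card ι) ≤
        ENNReal.ofReal (C ^ t) *
          ∫⁻ y in ball y0 (r / 2), ENNReal.ofReal (‖g (σ y)‖ ^ 2 * V.N om (σ y) ^ t) := by
  obtain ⟨C, C1, hC⟩ := submean_pow (KK w n)
  refine ⟨C, C1, fun ι _ S _ _ _ _ D V om T y0 r σ hr hc hl g hg t => ?_⟩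
  obtain ⟨L, -, ly, lc⟩ := exists_lift_convex V.c isOpen_ball (convex_ball y0 r) hc
    (mem_ball_self hr) 1
  have H : HMap D (ball y0 r) σ := ⟨isOpen_ball, hc, differentiableOn_id.congr hl⟩
  have H' : HMap V.rd (ball y0 r) L := ⟨isOpen_ball, lc, by simpa only [Cv.rd_π, ly] using H.hol⟩
  have := hC n ι y0 r (fun q => V.h (L q)) (fun q => V.Y (L q)) (fun q => om (L q))
    (fun q => g (σ q)) t hr (H'.lv V.glv.phs V.glv.ax).gm (H'.hol_comp T.hol) (H.hol_comp hg)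
  simpa only [hn_eq_N T, ly] using this

/-- the exponent `k` does not depend on `t` and `g` -/
theorem pt_bound (T : V.Top om) (ne : ∀ x, om x ≠ 0) {ψ : S → ℝ} {K : ℝ}
    (hK : 0 ≤ K) (lift : ∀ p, ∃ σ : (ι → ℂ) → S, σ (D.π p) = p ∧ ContinuousOn σ (Hyp.bal D K ψ p) ∧
      ∀ z ∈ Hyp.bal D K ψ p, D.π (σ z) = z ∧ |ψ (σ z) - ψ p| ≤ 1)
    {u : S → ℝ} (hu : Md ψ u) (u0 : ∀ p, 0 < u p) (um : Measurable u) :
    ∃ k : ℝ, 0 ≤ k ∧ ∀ (t : ℕ) (g : S → ℂ), D.Hol g →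
      ∫⁻ p, ENNReal.ofReal (‖g p‖ ^ 2 * V.N om p ^ t / u p) ∂D.μ < ⊤ →
      ∃ A : ℝ, 0 ≤ A ∧ ∀ p, ‖g p‖ ^ 2 * V.N om p ^ t ≤ A * Real.exp (k * ψ p) := by
  obtain ⟨C, C1, hC⟩ := submean_sec w n
  obtain ⟨L, L0, hL⟩ := hu
  refine ⟨L + 2 * K * Fintype.card ι, by positivity, fun t g hg hi => ?_⟩
  set F : S → ENNReal := fun p => ENNReal.ofReal (‖g p‖ ^ 2 * V.N om p ^ t / u p) with hF
  have Fm : Measurable F := ENNReal.measurable_ofReal.comp
    (((hg.cont.norm.pow 2).mul ((sm_N T).cont.pow t)).measurable.div um)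
  set J := ∫⁻ p, F p ∂D.μ with hJ
  have pi0 := Real.pi_pos
  have C0 : 0 < C := by linarith
  refine ⟨C ^ t * Real.exp (2 * L) * J.toReal /
    (Real.pi * (Real.exp (-K) / 2) ^ 2) ^ Fintype.card ι, by positivity, fun p => ?_⟩
  obtain ⟨σ, s0, s1, s2⟩ := lift p
  have r0 := Real.exp_pos (-(K * ψ p + K))
  have m := hC ι S D V om T (D.π p) _ σ r0 s1 (fun z hz => (s2 z hz).1) g hg t
  have sb := ball_subset_ball (x := D.π p) (half_le_self r0.le)
  have b := lint_sec D measurableSet_ball (fun z hz => (s2 z (sb hz)).1) Fm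
    (f := fun y => ENNReal.ofReal (‖g (σ y)‖ ^ 2 * V.N om (σ y) ^ t))
    (c := ENNReal.ofReal (Real.exp (L * ψ p + 2 * L))) ENNReal.ofReal_ne_top fun z hz => by
      rw [hF, ← ENNReal.ofReal_mul (Real.exp_pos _).le]
      refine ENNReal.ofReal_le_ofReal ?_
      have N0 := N_pos ne (σ z)
      rw [← mul_div_assoc, le_div_iff₀ (u0 _), mul_comm]
      refine mul_le_mul_of_nonneg_right ((hL _).trans (Real.exp_le_exp.2 ?_)) (by positivity)
      nlinarith [(abs_le.1 (s2 z (sb hz)).2).2]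
  have e := m.trans (mul_le_mul_right b _)
  rw [s0, ← hJ, ← ENNReal.ofReal_toReal hi.ne, ← ENNReal.ofReal_mul (Real.exp_pos _).le,
    ← ENNReal.ofReal_mul (by positivity), ENNReal.ofReal_le_ofReal_iff (by positivity),
    ← le_div_iff₀ (by positivity)] at e
  refine e.trans (le_of_eq ?_)
  have e1 : (Real.pi * (Real.exp (-(K * ψ p + K)) / 2) ^ 2) ^ Fintype.card ι =
      (Real.pi * (Real.exp (-K) / 2) ^ 2) ^ Fintype.card ι /
        Real.exp (2 * K * Fintype.card ι * ψ p) := by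
    rw [show 2 * K * Fintype.card ι * ψ p = (Fintype.card ι : ℕ) * ((2 : ℕ) * (K * ψ p)) by
      push_cast; ring, Real.exp_nat_mul, Real.exp_nat_mul, ← div_pow, neg_add, Real.exp_add,
      Real.exp_neg (K * ψ p)]
    congr 1
    field_simp
  rw [e1, add_mul, Real.exp_add, Real.exp_add]
  field_simp

end

end Pool.Agent.Lib.MP_5c318e_ag.Br
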