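import Pool.Agent.Lib.MP_5c318e_ag.B.Ord
import Pool.Agent.Lib.MP_5c318e_ag.B.Bridge
import Pool.Agent.Lib.MP_5c318e_ag.Z.LDefs
import Pool.Agent.Lib.MP_5c318e_ag.C.Col
import Pool.Agent.Lib.MP_5c318e_ag.U.Hyp
import Pool.Agent.Lib.MP_5c318e_ag.W.Conn

/-! The upper count for one level of the filtration by orders at a bad divisor. -/

set_option autoImplicit false

namespace Pool.Agent.Lib.MP_5c318e_ag.B

open Complex Matrix Metric Filter Topology Set MeasureTheory G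
open Pool.Agent.Lib.MP_5c318e_ag.Br (lvl exp_lvl ex_ne)

noncomputable section

theorem zpow_le_exp {x t : ℝ} (h0 : 0 < x) (h1 : 0 ≤ Real.log x⁻¹) (h2 : Real.log x⁻¹ ≤ t) (m : ℤ) :
    x ^ m ≤ Real.exp (|(m : ℝ)| * t) := by
  rw [← Real.exp_log (zpow_pos h0 m), Real.log_zpow, Real.exp_le_exp]
  rw [Real.log_inv] at h1 h2
  nlinarith [neg_abs_le (m : ℝ), abs_nonneg (m : ℝ)]

variable {ι F : Type} [Fintype ι] [DecidableEq ι] [Field F] [Algebra ℂ F] {C B : Cht ι F}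
  {P : ValuationSubring F} {i0 : ι} {k : Type} [Field k] [Algebra ℂ k]
  (Γ : Collar C P i0 k) (τ : Tr C.O B.O) (hτ : τ.h = C.z i0)

theorem tame_succ : Hyp.Tame Γ.S.D Γ.cov.f.natDegree Γ.cov.A (Γ.K + 1) Γ.cov.ψ Γ.σ ∧
    ∀ x, Hyp.bal Γ.S.D (Γ.K + 1) Γ.cov.ψ x ⊆ ball (Γ.S.D.π x) (Γ.ρ x / 2) := by
  have h3 := fun x => Hyp.bal_mono (D := Γ.S.D) (le_add_of_nonneg_right (a := Γ.K) zero_le_one)
    (Γ.cov.ψ_nonneg x)
  refine ⟨⟨Γ.tame.sheets, Γ.tame.A0, by linarith [Γ.tame.C0], Γ.tame.sm, Γ.tame.cpt, Γ.tame.lev,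
    fun p => (Γ.tame.grow p).trans (by linarith [Γ.cov.ψ_nonneg p]),
    fun p => (Γ.tame.cont p).mono (h3 p), Γ.tame.base, fun p z hz => Γ.tame.lift p z (h3 p hz)⟩,
    fun x => ball_subset_ball ?_⟩
  rw [le_div_iff₀ two_pos]
  refine (mul_le_mul_of_nonneg_left (show (2 : ℝ) ≤ Real.exp 1 by
    linarith [Real.add_one_le_exp (1 : ℝ)]) (Real.exp_pos _).le).trans ?_
  rw [← Real.exp_add, Real.exp_le_exp]
  linarith [Γ.cov.ψ_nonneg x]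

include hτ

/-- sizes on the circle of the level one above the boundary of the horn -/
theorem circ_siz : ∃ L : ℝ, 0 ≤ L ∧ ∀ x (ζ : ℂ), ‖ζ‖ = Γ.ρ x * Real.exp (-(2 * Real.pi)) →
    ∀ y ∈ Hyp.bal Γ.S.D Γ.K Γ.cov.ψ x, (ζ, y) ∈ Γ.dom0 x ∧ Real.log ‖ζ‖⁻¹ ≤ L * Γ.ψ x + L ∧
      B.siz (τ.map (Γ.H x (ζ, y))) ≤ L * Γ.ψ x + L := by
  obtain ⟨L, L0, hL⟩ := Γ.B_siz τ hτ
  have K0 := Γ.tame.C0
  have pp := Real.pi_pos
  refine ⟨(L + 1) * (Γ.K + 2 * Real.pi + 1), by positivity, fun x ζ hζ y hy => ?_⟩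
  have r0 : 0 < Γ.ρ x := Real.exp_pos _
  have p0 : 0 ≤ Γ.ψ x := Γ.cov.ψ_nonneg x
  have m : (ζ, y) ∈ Γ.dom0 x := ⟨⟨mem_ball_zero_iff.2 (hζ ▸ mul_lt_of_lt_one_right r0
    (Real.exp_lt_one_iff.2 (by linarith))), norm_pos_iff.1 (hζ ▸ mul_pos r0 (Real.exp_pos _))⟩, hy⟩
  have e : Real.log ‖ζ‖⁻¹ = Γ.K * Γ.ψ x + Γ.K + 2 * Real.pi := by
    rw [hζ, ← Real.exp_add, Real.log_inv, Real.log_exp]
    ring
  have b := hL x _ m
  rw [e] at b ⊢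
  have := mul_nonneg L0 p0
  have := mul_nonneg K0 p0
  have := mul_nonneg pp.le p0
  have := mul_nonneg L0 (mul_nonneg pp.le p0)
  exact ⟨m, by nlinarith, by nlinarith⟩

theorem quot_ev {g : F} (hg : g ∈ B.O) (m : ℤ) {p : Pt C.O} (hp : p (C.z i0) ≠ 0) :
    p.Reg (g / (C.z i0 : F) ^ m) ∧
      p.ev (g / (C.z i0 : F) ^ m) = (τ.map p).ev g / p (C.z i0) ^ m := by
  obtain ⟨a1, a2⟩ := τ.map_apply (hτ ▸ hp) ⟨g, hg⟩
  obtain ⟨b1, b2⟩ := p.ev_zpow (p.reg_coe (C.z i0)) (by rwa [Pt.ev_coe]) m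
  rw [Pt.ev_coe] at b2
  rw [Pt.ev_of_mem _ hg, a2, ← b2]
  exact p.ev_div a1 b1 (b2 ▸ zpow_ne_zero m hp)

include Γ in
theorem quot_mem {g : F} (hg : g ∈ B.O) {m : ℤ} (h : g / (C.z i0 : F) ^ m ∈ P) :
    g / (C.z i0 : F) ^ m ∈ C.O :=
  Γ.mem_O (Pt.mem_locAway fun _ hp => (quot_ev τ hτ hg m hp).1) h

/-- one level of the filtration -/
theorem up_core {N : Pt B.O → ℝ} (N0 : ∀ p, 0 < N p) {M : ℕ} (hM : 0 < M) {a0 : ℤ}
    {c : Pt Γ.S.O → ℝ} {ν : ℕ} {Cc : ℝ} (c0 : ∀ x, 0 < c x) (cs : Γ.S.D.Sm c)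
    (ker : ∀ x, ∀ L : Submodule ℂ ({i // i ≠ i0} → ℂ), ν ≤ Module.finrank ℂ L →
      ∃ ξ ∈ L, ξ ≠ 0 ∧ 0 ≤ Γ.S.D.levi (fun x => Real.log (c x)) x ξ)
    (res : ∀ (s : ℕ) (x : Pt Γ.S.O), ∃ W : ({i // i ≠ i0} → ℂ) → ℂ,
      DifferentiableOn ℂ W (ball (Γ.S.D.π x) (Γ.ρ x)) ∧ c x ^ (M * s) ≤ ‖W (Γ.S.D.π x)‖ ^ 2 ∧
      ∀ y ∈ ball (Γ.S.D.π x) (Γ.ρ x / 2), ∀ (G : ℂ → ℂ) (r : ℂ) (b : ℝ),
        DifferentiableOn ℂ G (ball 0 (Real.exp (-(2 * Real.pi * lvl (Γ.ρ x)))) \ {0}) →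
        Tendsto (fun z => G z * z ^ (a0 * s + 1)) (𝓝[≠] 0) (𝓝 r) →
        (∀ w : ℂ, w.im = lvl (Γ.ρ x) + 1 → ‖G (ex w) * ex w‖ ^ 2 *
          N (τ.map (Γ.Φ (ex w) (Γ.σ x y))) ^ s ≤ b) → ‖r * W y‖ ^ 2 ≤ Cc ^ s * b)
    (inv : Md B.siz fun p => (N p)⁻¹) {k0 : ℝ} (hk0 : 0 ≤ k0) (j : ℤ) :
    ν ≠ 0 ∧ ∃ A : ℕ, ∀ T : ℕ, 0 < T → ∀ U : Submodule ℂ F,
      (∀ g ∈ U, g ∈ B.O ∧ g / (C.z i0 : F) ^ (j - a0 * T) ∈ P ∧
        ∃ I : ℝ, ∀ p, ‖p.ev g‖ ^ 2 * N p ^ T ≤ I * Real.exp (k0 * B.siz p)) →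
      (∀ g ∈ U, g / (C.z i0 : F) ^ (j + 1 - a0 * T) ∈ P → g = 0) →
      FiniteDimensional ℂ U ∧ Module.finrank ℂ U ≤ A * (T + 1) ^ (ν - 1) := by
  have ν0 : ν ≠ 0 := by
    rintro rfl
    obtain ⟨ξ, h1, h2, -⟩ := ker (Classical.choice Γ.S.nonempty) ⊥ (Nat.zero_le _)
    exact h2 h1
  obtain ⟨tm, hb⟩ := tame_succ Γ
  obtain ⟨L, L0, hL⟩ := circ_siz Γ τ hτ
  obtain ⟨Ki, Ki0, inv⟩ := inv
  have K0 := Γ.tame.C0
  have wt : Hyp.Wt Γ.S.D (ν - 1) c := ⟨cs.cont, fun x => (c0 x).le, fun x _ => cs.two x,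
    fun x _ L hL => ker x L (by omega)⟩
  set d : ℝ := Nat.cast (Fintype.card {i // i ≠ i0}) with hd
  set k1 : ℝ := (2 * |(j : ℝ)| + k0) * L
  set κ1 : ℝ := 2 * |(j : ℝ)| + 2 * |(a0 : ℝ)| + k0 + Ki
  obtain ⟨J1, h1⟩ := exists_nat_gt (((d + 1) * (k1 + 3 * (Γ.K + 1)) + 1) * Γ.cov.A)
  obtain ⟨J0, h0⟩ := exists_nat_gt (((d + 1) * (κ1 * L + 3 * (Γ.K + 1)) + 1) * Γ.cov.A)
  refine ⟨ν0, Γ.cov.f.natDegree * J1 ^ (Fintype.card {i // i ≠ i0} - (ν - 1)) * J0 ^ (ν - 1),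
    fun T hT U hU inj => ?_⟩
  let φ : U → C.O := fun g => ⟨_, quot_mem Γ τ hτ (hU g g.2).1 (hU g g.2).2.1⟩
  let l : U →ₗ[ℂ] Pt Γ.S.O → ℂ :=
    { toFun := fun g q => q (Γ.res (φ g))
      map_add' := fun g g' => funext fun q => by
        rw [show φ (g + g') = φ g + φ g' from Subtype.ext (add_div _ _ _), map_add, map_add]
        rfl
      map_smul' := fun a g => funext fun q => by
        rw [show φ (a • g) = a • φ g from Subtype.ext (smul_div_assoc _ _ _), map_smul, map_smul]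
        rfl }
  have li : Function.Injective l := (injective_iff_map_eq_zero l).2 fun g hg => by
    have e := Γ.res_eq (φ g)
    rw [Γ.S.eq_zero (φ := Γ.res (φ g)) (congrFun hg)] at e
    have := Γ.at'.ad.unif _ ((Γ.rs_ker _).1 e.symm)
    refine Subtype.ext (inj g g.2 ?_)
    rwa [show j + 1 - a0 * T = j - a0 * T + 1 by ring, zpow_add_one₀ Γ.at'.ad.ne, ← div_div]
  have T1 : (1 : ℝ) ≤ T + 1 := le_add_of_nonneg_left T.cast_nonneg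
  have ct := Hyp.count tm wt (fun x => subset_closure (c0 x)) (mul_pos hM hT).ne' (k := k1)
    (κ := κ1 * L * (T + 1)) (by positivity) (by positivity) h1 (J₂ := J0 * (T + 1)) (by
      push_cast
      refine lt_of_le_of_lt ?_ (mul_lt_mul_of_pos_right h0 (by linarith))
      rw [mul_right_comm _ (Γ.cov.A : ℝ), ← hd]
      refine mul_le_mul_of_nonneg_right ?_ (Nat.cast_nonneg (α := ℝ) _)
      have : 0 ≤ (d + 1) * (Γ.K + 1) * T := by positivity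
      nlinarith) (LinearMap.range l) ?_
  · have := ct.1
    refine ⟨(LinearEquiv.ofInjective l li).symm.finiteDimensional, ?_⟩
    rw [← LinearMap.finrank_range_of_inj li, mul_assoc, ← mul_pow]
    exact ct.2
  rintro _ ⟨g, rfl⟩
  obtain ⟨g1, -, I, hI⟩ := hU g g.2
  have I0 : 0 ≤ |I| := abs_nonneg I
  have ev : ∀ x, ∀ u ∈ Γ.dom0 x, Γ.H x u (φ g) =
      (τ.map (Γ.H x u)).ev g / u.1 ^ (j - a0 * T) := fun x u hu => by
    rw [← Pt.ev_coe, ← Γ.H_z x (Γ.dom0_sub x hu)]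
    exact (quot_ev τ hτ g1 _ (Γ.z_ne x hu)).2
  have pt : ∀ (p : Pt B.O) (t : ℝ), B.siz p ≤ t →
      ‖p.ev g‖ ^ 2 * N p ^ T ≤ |I| * Real.exp (k0 * t) := fun p t h =>
    (hI p).trans (mul_le_mul (le_abs_self I) (Real.exp_le_exp.2 (mul_le_mul_of_nonneg_left h hk0))
      (Real.exp_pos _).le I0)
  refine ⟨Γ.S.hol _, ⟨Cc ^ T * (|I| * Real.exp k1), fun x => ?_⟩,
    |I| * Real.exp (T * Ki + κ1 * L * (T + 1)), fun x y hy => ?_⟩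
  · obtain ⟨W, w1, w2, w3⟩ := res T x
    have r0 : 0 < Γ.ρ x := Real.exp_pos _
    have sb := (hb x).trans (ball_subset_ball (half_le_self r0.le))
    refine ⟨W, w1.mono sb, w2, fun y hy => ⟨fun h => absurd h (c0 _).ne', ?_⟩⟩
    rw [mul_assoc]
    refine w3 y (hb x hy) (fun ζ => (τ.map (Γ.H x (ζ, y))).ev g * ζ ^ (-(j + 1))) _ _ ?_ ?_
      fun w hw => ?_
    · rw [exp_lvl r0]
      simp only [Pt.ev_of_mem _ g1]
      exact ((Γ.B_hol τ hτ ⟨g, g1⟩ x).comp (f := fun ζ : ℂ => (ζ, y)) (by fun_prop)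
        fun ζ hζ => ⟨hζ, sb hy⟩).mul
        fun ζ hζ => (differentiableAt_zpow.2 (Or.inl hζ.2)).differentiableWithinAt
    · refine ((Γ.tendsto_res (φ g) (Γ.σ x y)).mono_left nhdsWithin_le_nhds).congr' ?_
      filter_upwards [mem_nhdsWithin_of_mem_nhds (ball_mem_nhds (0 : ℂ) r0), self_mem_nhdsWithin]
        with ζ z1 z2
      rw [mul_assoc, ← zpow_add₀ z2, show -(j + 1) + (a0 * T + 1) = -(j - a0 * T) by ring,
        _root_.zpow_neg, ← div_eq_mul_inv]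
      exact ev x (ζ, y) ⟨⟨z1, z2⟩, sb hy⟩
    · obtain ⟨m1, m2, m3⟩ := hL x (ex w) (by
        rw [nrm_ex, hw, mul_add, neg_add, Real.exp_add, exp_lvl r0, mul_one]) y (sb hy)
      have z1 := zpow_le_exp (norm_pos_iff.2 (ex_ne w)) (Γ.log_nonneg x m1) m2 (-j)
      rw [mul_assoc _ _ (ex w), ← zpow_add_one₀ (ex_ne w), show -(j + 1) + 1 = -j by ring,
        norm_mul, mul_pow, mul_right_comm, norm_zpow]
      refine (mul_le_mul (pt _ _ m3) (pow_le_pow_left₀ (by positivity) z1 2) (by positivity)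
        (by positivity)).trans (le_of_eq ?_)
      rw [← Real.exp_nat_mul, mul_assoc, mul_assoc, ← Real.exp_add, ← Real.exp_add, Int.cast_neg,
        abs_neg]
      congr 2
      simp only [k1]
      push_cast
      ring
  · have r0 : 0 < Γ.ρ x := Real.exp_pos _
    have yb := (hb x).trans (ball_subset_ball (half_le_self r0.le)) hy
    have r1 : Γ.ρ x * Real.exp (-(2 * Real.pi)) < Γ.ρ x :=
      mul_lt_of_lt_one_right r0 (Real.exp_lt_one_iff.2 (by linarith [Real.pi_pos]))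
    have r2 : 0 < Γ.ρ x * Real.exp (-(2 * Real.pi)) := mul_pos r0 (Real.exp_pos _)
    have mx := norm_le_of_forall_mem_frontier_norm_le (f := fun ζ => Γ.H x (ζ, y) (φ g))
      (U := ball (0 : ℂ) (Γ.ρ x * Real.exp (-(2 * Real.pi)))) isBounded_ball
      (C := √(|I| * Real.exp (T * Ki + κ1 * L * (T + 1)) * Real.exp (κ1 * L * (T + 1) * Γ.ψ x)))
      (DifferentiableOn.diffContOnCl (((Γ.hol_O (φ g) x).comp (f := fun ζ : ℂ => (ζ, y))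
        (s := ball 0 (Γ.ρ x)) (by fun_prop) fun ζ hζ => ⟨hζ, yb⟩).mono (by
          rw [closure_ball _ r2.ne']
          exact closedBall_subset_ball r1))) (fun ζ hζ => ?_) (z := 0)
      (subset_closure (mem_ball_self r2))
    · simp only [Collar.H, Γ.zero, Pt.res_apply] at mx
      exact (Real.le_sqrt (norm_nonneg _) (by positivity)).1 mx
    rw [frontier_ball _ r2.ne', mem_sphere_zero_iff_norm] at hζ
    obtain ⟨m1, m2, m3⟩ := hL x ζ hζ y yb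
    set p := τ.map (Γ.H x (ζ, y))
    set t := L * Γ.ψ x + L with ht
    have t0 : 0 ≤ t := (B.siz_nonneg p).trans m3
    have z1 := zpow_le_exp (norm_pos_iff.2 m1.1.2) (Γ.log_nonneg x m1) m2 (-(j - a0 * T))
    have z2 : ‖p.ev g‖ ^ 2 ≤ |I| * Real.exp (k0 * t) * Real.exp (Ki * t + Ki) ^ T := by
      have n0 := N0 p
      refine le_trans (le_of_eq ?_) (mul_le_mul (pt p t m3) (pow_le_pow_left₀ (inv_pos.2 n0).le
        ((inv p).trans (Real.exp_le_exp.2 (add_le_add_left (mul_le_mul_of_nonneg_left m3 Ki0) _)))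
        T) (by positivity) (by positivity))
      rw [mul_assoc, ← mul_pow, mul_inv_cancel₀ n0.ne', one_pow, mul_one]
    refine Real.le_sqrt_of_sq_le ?_
    rw [ev x _ m1, div_eq_mul_inv, ← _root_.zpow_neg, norm_mul, mul_pow, norm_zpow]
    refine (mul_le_mul z2 (pow_le_pow_left₀ (by positivity) z1 2) (by positivity)
      (by positivity)).trans ?_
    rw [← Real.exp_nat_mul, ← Real.exp_nat_mul, mul_assoc, mul_assoc, mul_assoc, ← Real.exp_add,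
      ← Real.exp_add, ← Real.exp_add]
    refine mul_le_mul_of_nonneg_left (Real.exp_le_exp.2 ?_) I0
    have a1 : |((-(j - a0 * T) : ℤ) : ℝ)| ≤ |(j : ℝ)| + |(a0 : ℝ)| * T := by
      push_cast
      rw [abs_neg, ← Nat.abs_cast (R := ℝ) T, ← abs_mul, Nat.abs_cast]
      exact abs_sub _ _
    have a2 := mul_le_mul_of_nonneg_right a1 t0
    have e : κ1 * L * (T + 1) + κ1 * L * (T + 1) * Γ.ψ x = κ1 * (T + 1) * t := by
      rw [ht]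
      ring
    have a3 : 0 ≤ (2 * |(j : ℝ)| * T + 2 * |(a0 : ℝ)| + k0 * T + Ki) * t := by positivity
    rw [add_assoc, e]
    simp only [κ1]
    push_cast at a2 ⊢
    nlinarith

omit hτ in
/-- the field `up` of `Prof` -/
theorem up_bdy {B : FCht ι F} (b : Bdy B.toCht P) (Γ : Collar b.C P b.i0 k)
    {Dn : Pt B.O → ℝ} (D0 : ∀ p, 0 < Dn p) {M : ℕ} (hM : 0 < M) {al : ℤ}
    {c : Pt Γ.S.O → ℝ} {ν : ℕ} {Cc : ℝ} (c0 : ∀ x, 0 < c x) (cs : Γ.S.D.Sm c)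
    (ker : ∀ x, ∀ L : Submodule ℂ ({i // i ≠ b.i0} → ℂ), ν ≤ Module.finrank ℂ L →
      ∃ ξ ∈ L, ξ ≠ 0 ∧ 0 ≤ Γ.S.D.levi (fun x => Real.log (c x)) x ξ)
    (res : ∀ (s : ℕ) (x : Pt Γ.S.O), ∃ W : ({i // i ≠ b.i0} → ℂ) → ℂ,
      DifferentiableOn ℂ W (ball (Γ.S.D.π x) (Γ.ρ x)) ∧ c x ^ (M * s) ≤ ‖W (Γ.S.D.π x)‖ ^ 2 ∧
      ∀ y ∈ ball (Γ.S.D.π x) (Γ.ρ x / 2), ∀ (G : ℂ → ℂ) (r : ℂ) (bd : ℝ),
        DifferentiableOn ℂ G (ball 0 (Real.exp (-(2 * Real.pi * lvl (Γ.ρ x)))) \ {0}) →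
        Tendsto (fun z => G z * z ^ (al * s + 1)) (𝓝[≠] 0) (𝓝 r) →
        (∀ w : ℂ, w.im = lvl (Γ.ρ x) + 1 → ‖G (ex w) * ex w‖ ^ 2 *
          Dn (b.τ.map (Γ.Φ (ex w) (Γ.σ x y))) ^ s ≤ bd) → ‖r * W y‖ ^ 2 ≤ Cc ^ s * bd)
    (inv : Md B.siz fun p => (Dn p)⁻¹)
    (pt : ∀ N : ℕ, ∃ k0 : ℝ, 0 ≤ k0 ∧ ∀ (T : ℕ) (g : B.O),
      ∫⁻ p, ENNReal.ofReal (‖p g‖ ^ 2 * Dn p ^ T / B.sz p ^ N) ∂B.D.μ < ⊤ →
      ∃ I : ℝ, ∀ p : Pt B.O, ‖p g‖ ^ 2 * Dn p ^ T ≤ I * Real.exp (k0 * B.siz p)) :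
    ν ≠ 0 ∧ ∀ (N : ℕ) (j : ℤ), ∃ A : ℕ, ∀ T : ℕ, 0 < T →
      ∀ U : Submodule ℂ F, (∀ g ∈ U, g ∈ B.O ∧ b.Ge g (j - al * T) ∧
        ∫⁻ p, ENNReal.ofReal (‖p.ev g‖ ^ 2 * Dn p ^ T / B.sz p ^ N) ∂B.D.μ < ⊤) →
      (∀ g ∈ U, b.Ge g (j + 1 - al * T) → g = 0) →
      FiniteDimensional ℂ U ∧ Module.finrank ℂ U ≤ A * (T + 1) ^ (ν - 1) := by
  refine ⟨(up_core Γ b.τ b.hτ D0 hM c0 cs ker res inv le_rfl 0).1, fun N j => ?_⟩
  obtain ⟨k0, hk, pt⟩ := pt N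
  obtain ⟨-, A, hA⟩ := up_core Γ b.τ b.hτ D0 hM c0 cs ker res inv hk j
  refine ⟨A, fun T hT U hU => hA T hT U fun g hg => ?_⟩
  obtain ⟨g1, g2, g3⟩ := hU g hg
  simp only [Pt.ev_of_mem _ g1] at g3 ⊢
  exact ⟨g1, g2, pt T ⟨g, g1⟩ g3⟩

end

end Pool.Agent.Lib.MP_5c318e_ag.B
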