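import Pool.Agent.Lib.MP_5c318e_ag.Pf.Triv
import Pool.Agent.Lib.MP_5c318e_ag.Pf.Pt
import Pool.Agent.Lib.MP_5c318e_ag.Pf.Up
import Pool.Agent.Lib.MP_5c318e_ag.B.Glob
import Pool.Agent.Lib.MP_5c318e_ag.B.Ord
import Pool.Agent.Lib.MP_5c318e_ag.C.Horn
import Pool.Agent.Lib.MP_5c318e_ag.S.CAt
import Pool.Agent.Lib.MP_5c318e_ag.W.Conn
import Pool.Agent.Lib.MP_5c318e_ag.K.KDefs
import Pool.Agent.Lib.MP_5c318e_ag.Z.Bdy

/-! The profile of the Hodge line at all prime divisors. -/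

set_option autoImplicit false
set_option linter.unusedSectionVars false

namespace Pool.Agent.Lib.MP_5c318e_ag

open MeasureTheory Metric Filter Topology Set

noncomputable section

variable {δ F : Type} [Fintype δ] [DecidableEq δ] [Field F] [Algebra ℂ F]

theorem exists_bdy (B : Cht δ F) (P : PD F) : Nonempty (Bdy B P.1) := by
  obtain ⟨⟨i0⟩, h⟩ := exists_adapted B.basis P.2
  obtain ⟨c, hc⟩ := h i0
  obtain ⟨C, h1, -, -, τ, h2⟩ := exists_cht_at B P.2 hc ∅ (by simp)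
  exact ⟨⟨C, i0, τ, h1, h2⟩⟩

theorem Base.exists_e {B : FCht δ F} {η : F} {k0 : ℕ} (h : Base B η k0) (P : PD F)
    (b : Bdy B.toCht P.1) : ∃ e : ℕ, P.1.valuation (η / b.J ^ k0) = P.1.valuation b.z ^ e := by
  obtain ⟨p⟩ := B.toCht.nonempty
  have h0 : η ≠ 0 := fun e => h.ne p (by rw [e, Pt.ev_zero])
  obtain ⟨j, hj⟩ := b.exists_ord (div_ne_zero h0 (pow_ne_zero k0 b.J_ne))
  have m := (b.cen.ad.regI_iff B.dual P.2 (B.toCht.exists_adjoin ℂ) k0 η).1 (h.plu P.1 P.2)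
  obtain ⟨e, rfl⟩ := Int.eq_ofNat_of_zero_le ((b.ge_iff hj).1 (b.ge_zero_iff.2 m))
  exact ⟨e, by rw [hj, zpow_natCast]⟩

variable {B : FCht δ F} {n : Type} [Fintype n] [DecidableEq n] {w : ℕ} {V : G.Pk B.D n w}
  {om : V.Bt → n → ℂ}

theorem FCht.pt_pow (T : V.Top om) (ne : ∀ x, om x ≠ 0) (M N : ℕ) :
    ∃ κ : ℝ, 0 ≤ κ ∧ ∀ (t : ℕ) (g : B.O),
      ∫⁻ p, ENNReal.ofReal (‖p g‖ ^ 2 * (V.N om p ^ M) ^ t / B.sz p ^ N) ∂B.D.μ < ⊤ →
      ∃ A : ℝ, ∀ p : Pt B.O, ‖p g‖ ^ 2 * (V.N om p ^ M) ^ t ≤ A * Real.exp (κ * B.siz p) := by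
  obtain ⟨L, hL, lift⟩ := B.toCht.lift_bal
  obtain ⟨κ, h0, h⟩ := Br.pt_bound T ne hL lift
    (B.md_sz.pow B.toCht.siz_nonneg (fun p => (B.sz_pos p).le) N)
    (fun p => pow_pos (B.sz_pos p) N) (B.continuous_sz.pow N).measurable
  simp only [← pow_mul]
  exact ⟨κ, h0, fun t g hi => (h (M * t) _ (B.hol g) hi).imp fun _ h => h.2⟩

theorem exists_prof {η : F} {k0 : ℕ} (hB : Base B η k0) (T : V.Top om) (ne : ∀ x, om x ≠ 0)
    (h : Br.Line V om) {ν : ℕ} (rk : Br.Rk V om ν) (tem : B.Tem (V.N om))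
    (tem' : B.Tem fun p => (V.N om p)⁻¹) :
    ∃ M : ℕ, 0 < M ∧ Nonempty (Prof B η k0 (fun p => V.N om p ^ M) ν (K.ch T ne)) := by
  obtain ⟨M, hM, H⟩ := MP_5c318e_ag.B.horn_glob n
  obtain ⟨C, -, H⟩ := H (G.KK w n)
  refine ⟨M, hM, ?_⟩
  have psh := h.psh T ne
  have bd : ∀ P : PD F, Bdy B.toCht P.1 := fun P => (exists_bdy B.toCht P).some
  choose e he using fun P => hB.exists_e P (bd P)
  choose k i1 i2 Γ _ using fun P => exists_collar (bd P).cen ∅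
  have col := fun P => (Γ P).col (bd P).τ (bd P).hτ
  have md := fun P => (Γ P).mod (bd P).τ (bd P).hτ tem.md
  have pc := fun P => (Γ P).S.preconnected (Γ P).fin
  choose al b c c0 cs _ au sk a2 using fun P => H _ _ (Γ P).S.D (fun x => Br.lvl ((Γ P).ρ x))
    (Γ P).ρ (Γ P).σ (fun z x => V.N om ((bd P).τ.map ((Γ P).Φ (MP_5c318e_ag.B.ex z) x)))
    (col P).sec ((col P).input T ne psh (md P))
  have lf := fun P x => (col P).exists_lift V x (Br.strip_mem _ _ ((col P).R0 x)) 1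
  have sk' := fun P x L γ H => sk P x _ _ _ _ _ ((col P).horn T ne psh (md P x) (L := L) (γ := γ) H)
    fun p _ => (H.norm T p).symm
  refine ⟨⟨bd, e, al, fun P => ∀ x L γ, Br.CL V (Γ P).S.D (Γ P).ρ (Γ P).ρ (Γ P).σ
    (fun ζ x => (bd P).τ.map ((Γ P).Φ ζ x)) x L γ → V.Sc om γ, he, fun P => ?_, fun P => ?_,
    fun P g => ?_, fun P g => ?_, fun P g => ?_⟩⟩
  · refine (bd P).gen_col (Γ P) fun q => ⟨(c P q / 2) ^ M, pow_pos (half_pos (c0 P q)) M, ?_⟩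
    exact (bd P).near_col (Γ P) q (A := fun z p => (c P q / 2) ^ M * ‖z‖ ^ (2 * al P) ≤ V.N om p ^ M)
      (MP_5c318e_ag.B.AsyU.lo (g := fun p => V.N om ((bd P).τ.map ((Γ P).Φ p.1 p.2))) (au P q) hM
        (c0 P q))
  · refine (bd P).gen_col (Γ P) fun q ε hε => ?_
    exact (bd P).near_col (Γ P) q (A := fun z p => V.N om p ^ M ≤ ‖z‖ ^ (2 * al P - ε : ℝ))
      (MP_5c318e_ag.B.AsyU.hi (g := fun p => V.N om ((bd P).τ.map ((Γ P).Φ p.1 p.2))) (au P q) hM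
        (c0 P q) hε)
  · refine (bd P).gen_col (Γ P) fun q => ⟨(2 * c P q) ^ M, ?_⟩
    obtain ⟨L, γ, H, -⟩ := lf P q
    have a := au P q
    rw [(sk' P q L γ H).1 (((col P).scal_iff T H).2 (g q L γ H))] at a
    exact (bd P).near_col (Γ P) q (A := fun z p => V.N om p ^ M ≤ (2 * c P q) ^ M * ‖z‖ ^ (2 * al P))
      (MP_5c318e_ag.B.AsyU.hi' (g := fun p => V.N om ((bd P).τ.map ((Γ P).Φ p.1 p.2))) a hM
        (c0 P q))
  · refine (bd P).gen_col (Γ P) fun q => ?_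
    obtain ⟨L, γ, H, -⟩ := lf P q
    exact (bd P).triv_col (Γ P) H ((QuotientGroup.eq_one_iff γ).2 (g q L γ H))
  · have bad := ((col P).dich T).resolve_left g
    refine MP_5c318e_ag.B.up_bdy (bd P) (Γ P) (fun p => pow_pos (Br.N_pos ne p) M) hM (c0 P) (cs P)
      (Cc := C) (fun x U hU => ?_) (fun s x => ?_)
      ((tem'.md.pow B.toCht.siz_nonneg (fun p => inv_nonneg.2 (Br.N_pos ne p).le) M).mono
        fun p => (inv_pow _ _).ge) (FCht.pt_pow T ne M)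
    · obtain ⟨L, γ, H, -⟩ := lf P x
      exact ((sk' P x L γ H).2 ν (H.rankLe ((col P).hmap x) T rk)
        (fun s => bad x L γ H (((col P).scal_iff T H).1 s)) U hU).imp
        fun ξ h => ⟨h.1, h.2.1, h.2.2.ge⟩
    · simpa only [pow_mul] using a2 P s x

end

end Pool.Agent.Lib.MP_5c318e_ag
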