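import Pool.Agent.Lib.MP_5c318e_ag.Pf.Col

/-! Trivial local monodromy makes the covering trivial over a punctured neighbourhood. -/

set_option autoImplicit false
set_option linter.unusedSectionVars false

namespace Pool.Agent.Lib.MP_5c318e_ag

open Complex Metric Filter Topology Set B

noncomputable section

/-- periodic maps of the strip descend to the punctured piece -/
theorem Br.per_desc {E X : Type} [NormedAddCommGroup E] [NormedSpace ℂ E] [TopologicalSpace X]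
    {a R : ℝ} {y0 : E} {L : ℂ × E → X} (hc : ContinuousOn L (strip a y0 R))
    (per : ∀ q ∈ strip a y0 R, L (q.1 + 1, q.2) = L q) :
    ∃ L0 : ℂ × E → X, ∀ q ∈ strip a y0 R,
      L0 (B.ex q.1, q.2) = L q ∧ ContinuousAt L0 (B.ex q.1, q.2) := by
  have pz : ∀ q ∈ strip a y0 R, ∀ m : ℤ, L (q.1 + m, q.2) = L q := fun q hq m => by
    have mem : ∀ j : ℤ, (q.1 + j, q.2) ∈ strip a y0 R := fun j => ⟨by simpa using hq.1, hq.2⟩
    induction m using Int.induction_on with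
    | zero => simp
    | succ j ih => rw [← ih, ← per _ (mem j)]; simp only [Int.cast_add, Int.cast_one, add_assoc]
    | pred j ih => rw [← ih, ← per _ (mem (-j - 1))]; simp [add_assoc]
  have e : ∀ q ∈ strip a y0 R, L (log (B.ex q.1) / (2 * Real.pi * I), q.2) = L q := fun q hq => by
    obtain ⟨m, hm⟩ := exp_eq_exp_iff_exists_int.1 (exp_log (Br.ex_ne q.1))
    rw [B.ex, hm, add_div, mul_div_cancel_left₀ _ two_pi_I_ne_zero,
      mul_div_cancel_right₀ _ two_pi_I_ne_zero, pz q hq]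
  refine ⟨fun u => L (log u.1 / (2 * Real.pi * I), u.2), fun q hq => ⟨e q hq, ?_⟩⟩
  have n : 𝓝 (B.ex q.1, q.2) = map (Prod.map B.ex id) (𝓝 q) := by
    rw [nhds_prod_eq, ← Br.map_ex_nhds, ← q.eta, nhds_prod_eq, ← prod_map_map_eq', Filter.map_id]
  have m := (Br.strip_open a y0 R).mem_nhds hq
  rw [ContinuousAt, n, tendsto_map'_iff, e q hq]
  exact (hc.continuousAt m).tendsto.congr' (mem_of_superset m fun p hp => (e p hp).symm)

variable {ι F : Type} [Fintype ι] [DecidableEq ι] [Field F] [Algebra ℂ F] {B : Cht ι F}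
  {P : ValuationSubring F} (b : Bdy B P) {k : Type} [Field k] [Algebra ℂ k]
  (Γ : Collar b.C P b.i0 k) {n : Type} [Fintype n] [DecidableEq n] {w : ℕ}

theorem Bdy.triv_col {V : G.Pk B.D n w} {q : Pt Γ.S.O} {L : ℂ × ({i // i ≠ b.i0} → ℂ) → V.Bt}
    {γ : V.Γ} (H : Br.CL V Γ.S.D Γ.ρ Γ.ρ Γ.σ (fun ζ x => b.τ.map (Γ.Φ ζ x)) q L γ) {A : Type}
    [Group A] {f : V.Γ →* A} (hf : f γ = 1) : b.Triv (V.c.map f) (q.res Γ.res) := by
  obtain ⟨L0, h0⟩ := Br.per_desc (L := fun u => (L u).map f)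
    ((G.Cv.continuous_map f).comp_continuousOn H.cont)
    fun u hu => by rw [H.per u hu, G.Cv.map_smul, hf, one_smul]
  have h1 : ∀ u ∈ Γ.dom0 q, (L0 u).y = b.τ.map (Γ.H q u) ∧ ContinuousAt L0 u := by
    rintro ⟨z, y⟩ hu
    obtain ⟨t, ht, rfl⟩ := Br.exists_ex (a := Br.lvl (Γ.ρ q)) (z := z) (by
      rw [Br.exp_lvl (Real.exp_pos _)]
      exact hu.1)
    obtain ⟨e1, e2⟩ := h0 (t, y) ⟨ht, hu.2⟩
    exact ⟨by rw [e1, G.Cv.map_y, H.y], e2⟩
  refine ⟨_, (Γ.ev_crd q).eventually_nhds, fun x => (L0 (Γ.crd x)).g, fun x hx x0 => ?_⟩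
  have m : Γ.crd x ∈ Γ.dom0 q := ⟨⟨hx.self_of_nhds.1.1, x0⟩, hx.self_of_nhds.1.2⟩
  have t := Γ.crd_cont.tendsto x
  filter_upwards [(G.Cv.tendsto_iff.1 ((h1 _ m).2.tendsto.comp t)).2, hx,
    t.eventually ((Γ.isOpen_dom0 q).mem_nhds m)] with x' a1 a2 a3
  simp only [Function.comp] at a1
  rw [a1, (h1 _ m).1, (h1 _ a3).1, a2.2, hx.self_of_nhds.2]

end

end Pool.Agent.Lib.MP_5c318e_ag
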